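import Pool.Agent.W285.UB.All

/-!
# Almost all Hénon maps over a number field have no periodic point of bounded degree

Let `K` be a number field, `B ≥ 1`, `E = B [K : ℚ]` and `d ≥ 6 E (E + 1) + 4`. All but a proportion
`O(H^(-1/4))` of the generalized Hénon maps `(x, y) ↦ (y, (F(y) - δ x) / m)` of degree `d` over `K`
of size at most `H` have no periodic point `P` with `[K(P) : K] ≤ B`. This holds uniformly in the
denominator `m`, in particular for the maps with integral coefficients (`m = 1`).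
-/

set_option autoImplicit false

namespace Pool.Agent.Results.MP_0e6b5f_nt.AlmostAllBoundedDegree

open NumberField Height Module

/-- The numerators of a Hénon map of degree `d`: the coefficients `q.1 i` of the polynomial
`F(y) = q.1 0 + q.1 1 y + ... + q.1 d y^d` and the number `δ = q.2`, all in the ring of integers. -/
abbrev Nums (K : Type) [Field K] (d : ℕ) : Type := (Fin (d + 1) → 𝓞 K) × 𝓞 K

/-- The integers of `K` all of whose coordinates in the integral basis are at most `H` in absolute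
value. -/
def small (K : Type) [Field K] [NumberField K] (H : ℕ) : Set (𝓞 K) :=
  {z | ∀ j, |(RingOfIntegers.basis K).repr z j| ≤ (H : ℤ)}

/-- The numerators of size at most `H`. -/
def box (K : Type) [Field K] [NumberField K] (d H : ℕ) : Set (Nums K d) :=
  {q | (∀ i, q.1 i ∈ small K H) ∧ q.2 ∈ small K H}

/-- The Hénon map `(x, y) ↦ (y, (F(y) - δ x) / m)` on the plane over an extension `L` of `K`. -/
noncomputable def henon {K L : Type} [Field K] [Field L] [Algebra K L] {d : ℕ} (q : Nums K d)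
    (m : 𝓞 K) (P : L × L) : L × L :=
  (P.2, ((∑ i : Fin (d + 1), algebraMap K L (q.1 i : K) * P.2 ^ (i : ℕ)) -
    algebraMap K L (q.2 : K) * P.1) / algebraMap K L (m : K))

/-- The map is a generalized Hénon map of degree `d` (its denominator `m` is not zero below). -/
def IsHenon {K : Type} [Field K] {d : ℕ} (q : Nums K d) : Prop := q.1 (Fin.last d) ≠ 0 ∧ q.2 ≠ 0

/-- The map has a periodic point over an extension `L` of `K` of degree at most `B`. -/
def HasPeriodicPoint {K : Type} [Field K] [NumberField K] {d : ℕ} (B : ℕ) (q : Nums K d)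
    (m : 𝓞 K) : Prop :=
  ∃ (L : Type) (_ : Field L) (_ : NumberField L) (_ : Algebra K L), finrank K L ≤ B ∧
    ∃ P : L × L, ∃ n : ℕ, 1 ≤ n ∧ (henon q m)^[n] P = P

/-- **Almost all Hénon maps of large degree over a number field have no periodic point of bounded
degree.** Let `K` be a number field of degree `n`, `B ≥ 1`, `E = B n` and `d ≥ 6 E (E + 1) + 4`.
Uniformly in the denominator `m ≠ 0` (`m = 1` or `m` of size at most `H`), all but
`O(H^(n (d + 2) - 1/4))` of the `(2 H + 1)^(n (d + 2))` numerators of size at most `H` give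
generalized Hénon maps of degree `d` without periodic point `P` such that `[K(P) : K] ≤ B`. So the
proportion of maps with such a periodic point tends to `0`, among the Hénon maps of degree `d` with
integral coefficients of size at most `H`, and among all Hénon maps of degree `d` over `K` with
numerators and common denominator of size at most `H`. -/
theorem result (K : Type) [Field K] [NumberField K] (B d : ℕ) (hB : 1 ≤ B)
    (hd : 6 * (B * finrank ℚ K * (B * finrank ℚ K + 1)) + 4 ≤ d) :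
    (∀ H : ℕ, (box K d H).ncard = (2 * H + 1) ^ (finrank ℚ K * (d + 2))) ∧
    (∃ C : ℝ, ∀ H : ℕ, 1 ≤ H → ∀ m : 𝓞 K, m ≠ 0 → (m = 1 ∨ m ∈ small K H) →
      (({q | q ∈ box K d H ∧ ¬ (IsHenon q ∧ ¬ HasPeriodicPoint B q m)} :
        Set (Nums K d)).ncard : ℝ) ≤ C * (H : ℝ) ^ ((finrank ℚ K : ℝ) * (d + 2) - 1 / 4)) ∧
    Filter.Tendsto (fun H : ℕ =>
      (({q | q ∈ box K d H ∧ IsHenon q ∧ HasPeriodicPoint B q 1} : Set (Nums K d)).ncard : ℝ) /
        (({q | q ∈ box K d H ∧ IsHenon q} : Set (Nums K d)).ncard : ℝ))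
      Filter.atTop (nhds 0) ∧
    (∃ C : ℝ, ∀ H : ℕ, 1 ≤ H →
      (({p | p.1 ∈ box K d H ∧ p.2 ∈ small K H ∧ p.2 ≠ 0 ∧ IsHenon p.1 ∧
        HasPeriodicPoint B p.1 p.2} : Set (Nums K d × 𝓞 K)).ncard : ℝ) ≤
        C * (H : ℝ) ^ ((finrank ℚ K : ℝ) * (d + 3) - 1 / 4)) ∧
    Filter.Tendsto (fun H : ℕ =>
      (({p | p.1 ∈ box K d H ∧ p.2 ∈ small K H ∧ p.2 ≠ 0 ∧ IsHenon p.1 ∧
        HasPeriodicPoint B p.1 p.2} : Set (Nums K d × 𝓞 K)).ncard : ℝ) /
        (({p | p.1 ∈ box K d H ∧ p.2 ∈ small K H ∧ p.2 ≠ 0 ∧ IsHenon p.1} :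
          Set (Nums K d × 𝓞 K)).ncard : ℝ))
      Filter.atTop (nhds 0) := by
  classical
  have hball := @Pool.Agent.W285.UB.p_ball
  have hbox : ∀ H, box K d H = {q | (∀ i, q.1 i ∈ Pool.Agent.W285.UB.ball K H) ∧
    q.2 ∈ Pool.Agent.W285.UB.ball K H} := fun H => rfl
  have hfin : ∀ H, (box K d H).Finite := fun H => by
    rw [hbox]
    exact Pool.Agent.W285.UB.boxH_finite hball d H
  have h1 : ∀ H : ℕ, (box K d H).ncard = (2 * H + 1) ^ (finrank ℚ K * (d + 2)) := fun H => by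
    rw [hbox]
    exact Pool.Agent.W285.UB.boxH_ncard hball d H
  obtain ⟨C, hC⟩ := Pool.Agent.W285.UB.fin2 hball Pool.Agent.W285.UB.p_hcnt2
    Pool.Agent.W285.UB.p_hper2 K B d hB hd
  obtain ⟨C3, hC3⟩ := Pool.Agent.W285.UB.fin3 hball Pool.Agent.W285.UB.p_hcnt2
    Pool.Agent.W285.UB.p_hper2 K B d hB hd
  have hC' : ∀ H : ℕ, 1 ≤ H → ∀ m : 𝓞 K, m ≠ 0 → (m = 1 ∨ m ∈ small K H) →
      (({q | q ∈ box K d H ∧ ¬ (IsHenon q ∧ ¬ HasPeriodicPoint B q m)} :
        Set (Nums K d)).ncard : ℝ) ≤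
        C * (H : ℝ) ^ ((finrank ℚ K : ℝ) * (d + 2) - 1 / 4) := fun H hH m hm hm1 => by
    refine le_trans (le_of_eq ?_) (hC H hH m hm hm1)
    congr 2
    ext q
    unfold Pool.Agent.W285.UB.badH
    constructor
    · rintro ⟨g1, g2⟩
      exact ⟨g1, fun h => g2 ⟨⟨h.1, h.2.1⟩, h.2.2⟩⟩
    · rintro ⟨g1, g2⟩
      exact ⟨g1, fun h => g2 ⟨h.1.1, h.1.2, h.2⟩⟩
  have hfin3 : ∀ H, ({p | (p.1 ∈ box K d H ∧ p.2 ∈ small K H)} : Set (Nums K d × 𝓞 K)).Finite :=
    fun H => (Pool.Agent.W285.UB.box3_ncard (K := K) hball d H).1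
  have hcard3 : ∀ H, ({p | (p.1 ∈ box K d H ∧ p.2 ∈ small K H)} : Set (Nums K d × 𝓞 K)).ncard =
      (2 * H + 1) ^ (finrank ℚ K * (d + 3)) :=
    fun H => (Pool.Agent.W285.UB.box3_ncard (K := K) hball d H).2
  have hC3' : ∀ H : ℕ, 1 ≤ H →
      (({p | (p.1 ∈ box K d H ∧ p.2 ∈ small K H) ∧ ¬ (p.2 ≠ 0 ∧ IsHenon p.1 ∧
        ¬ HasPeriodicPoint B p.1 p.2)} : Set (Nums K d × 𝓞 K)).ncard : ℝ) ≤
        C3 * (H : ℝ) ^ ((finrank ℚ K : ℝ) * (d + 3) - 1 / 4) := fun H hH => by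
    refine le_trans (le_of_eq ?_) (hC3 H hH)
    congr 2
    ext p
    constructor
    · rintro ⟨g1, g2⟩
      exact ⟨g1, fun h => g2 ⟨h.1, ⟨h.2.1, h.2.2.1⟩, h.2.2.2⟩⟩
    · rintro ⟨g1, g2⟩
      exact ⟨g1, fun h => g2 ⟨h.1, h.2.1.1, h.2.1.2, h.2.2⟩⟩
  have hsub3 : ∀ H : ℕ, ({p | p.1 ∈ box K d H ∧ p.2 ∈ small K H ∧ p.2 ≠ 0 ∧ IsHenon p.1 ∧
        HasPeriodicPoint B p.1 p.2} : Set (Nums K d × 𝓞 K)).ncard ≤
      ({p | (p.1 ∈ box K d H ∧ p.2 ∈ small K H) ∧ ¬ (p.2 ≠ 0 ∧ IsHenon p.1 ∧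
        ¬ HasPeriodicPoint B p.1 p.2)} : Set (Nums K d × 𝓞 K)).ncard := by
    intro H
    refine Set.ncard_le_ncard ?_ ((hfin3 H).subset fun p h => h.1)
    rintro p ⟨g1, g2, g3, g4, g5⟩
    exact ⟨⟨g1, g2⟩, fun h => h.2.2 g5⟩
  refine ⟨h1, ⟨C, hC'⟩, ?_, ⟨C3, fun H hH => le_trans (Nat.cast_le.2 (hsub3 H)) (hC3' H hH)⟩, ?_⟩
  · refine Pool.Agent.W285.UB.ratio_tendsto (N := finrank ℚ K * (d + 2)) (C := C) (ε := 1 / 4)
      (b := fun H => (({q | q ∈ box K d H ∧ ¬ (IsHenon q ∧ ¬ HasPeriodicPoint B q 1)} :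
        Set (Nums K d)).ncard : ℝ)) (by norm_num) (fun H => Nat.cast_nonneg _) (fun H => ?_)
      (fun H hH => ?_) (fun H => ?_)
    · refine Nat.cast_le.2 (Set.ncard_le_ncard ?_ ((hfin H).subset fun φ h => h.1))
      rintro φ ⟨g1, g2, g3⟩
      exact ⟨g1, fun h => h.2 g3⟩
    · refine (hC' H hH 1 one_ne_zero (Or.inl rfl)).trans (le_of_eq ?_)
      push_cast
      rfl
    · have e1 : (2 * (H : ℝ) + 1) ^ (finrank ℚ K * (d + 2)) = ((box K d H).ncard : ℝ) := by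
        rw [h1]
        push_cast
        rfl
      rw [e1, sub_le_iff_le_add, ← Nat.cast_add]
      refine Nat.cast_le.2 (le_trans (Set.ncard_le_ncard ?_ ?_) (Set.ncard_union_le _ _))
      · intro φ hφ
        by_cases h : IsHenon φ
        · exact Or.inl ⟨hφ, h⟩
        · exact Or.inr ⟨hφ, fun h' => h h'.1⟩
      · exact ((hfin H).subset fun φ h => h.1).union ((hfin H).subset fun φ h => h.1)
  · refine Pool.Agent.W285.UB.ratio_tendsto (N := finrank ℚ K * (d + 3)) (C := C3) (ε := 1 / 4)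
      (b := fun H => (({p | (p.1 ∈ box K d H ∧ p.2 ∈ small K H) ∧ ¬ (p.2 ≠ 0 ∧ IsHenon p.1 ∧
        ¬ HasPeriodicPoint B p.1 p.2)} : Set (Nums K d × 𝓞 K)).ncard : ℝ)) (by norm_num)
      (fun H => Nat.cast_nonneg _) (fun H => Nat.cast_le.2 (hsub3 H)) (fun H hH => ?_)
      (fun H => ?_)
    · refine (hC3' H hH).trans (le_of_eq ?_)
      push_cast
      rfl
    · have e1 : (2 * (H : ℝ) + 1) ^ (finrank ℚ K * (d + 3)) =
          (({p | (p.1 ∈ box K d H ∧ p.2 ∈ small K H)} : Set (Nums K d × 𝓞 K)).ncard : ℝ) := by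
        rw [hcard3]
        push_cast
        rfl
      rw [e1, sub_le_iff_le_add, ← Nat.cast_add]
      refine Nat.cast_le.2 (le_trans (Set.ncard_le_ncard ?_ ?_) (Set.ncard_union_le _ _))
      · rintro p ⟨g1, g2⟩
        by_cases h : p.2 ≠ 0 ∧ IsHenon p.1
        · exact Or.inl ⟨g1, g2, h.1, h.2⟩
        · exact Or.inr ⟨⟨g1, g2⟩, fun h' => h ⟨h'.1, h'.2.1⟩⟩
      · exact ((hfin3 H).subset fun p h => ⟨h.1, h.2.1⟩).union ((hfin3 H).subset fun p h => h.1)

end Pool.Agent.Results.MP_0e6b5f_nt.AlmostAllBoundedDegree
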