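import Pool.Agent.W275.ND.AllH

/-!
# MP_0e6b5f_nt: uniform boundedness for 100% of the Hénon maps of every degree

For all `D`, `B` and `d ≥ 2` there is one constant `C`, equal to `0` if `B < d`, such that for every
number field `k` of degree at most `D` almost all generalized Hénon maps of degree `d` over `k`
(ordered by the size of their coefficients) have at most `C` periodic points `P` with
`[k(P) : k] ≤ B`.

Proof. At a place of good reduction above `p` the period of a periodic point over a field of degree
at most `E` divides `W(p, E) p^r`; two such places bound it. All maps but a proportion `ε` have two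
places of good reduction above primes which depend only on `ε`. If a positive proportion of the maps
had periodic points of degree at most `E` with a period not dividing `e = W(2, E) W(3, E)`, then so
would the generic map (ultraproducts and Hilbert irreducibility), which has good reduction at
places above `2` and `3`, a contradiction. If a positive proportion of the maps had periodic points of
degree less than `d`, the generic map would have such a point; embed its field in a `p`-adic field,
`p` split in `k`, so that the map becomes close to `(x, y) ↦ (y, y^d + 1/p)`, which has no periodic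
point over extensions of ramification less than `d`.

Parts were proved by helpers 131, 216, 240, 333, 469, 930 (subtasks of helper275) and by the helpers
of the project UB (`MP_13bc7b_nt.OneHundredPercent`).
-/

set_option autoImplicit false

open NumberField Filter Topology

namespace Pool.Agent.Results.MP_0e6b5f_nt.HundredPercent

/-- The coefficients of a generalized Hénon map of degree `d` over `k`, all in the ring of integers:
`q (inl i) = a_i` for `0 ≤ i ≤ d`, `q (inr none) = δ`, and the factors `q (inr (some s)) = m_s`,
`s < r`, of a denominator `m = m_1 ⋯ m_r`. For `r = 0` there is no denominator (integral maps), for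
`r = 1` all Hénon maps over `k` are obtained, written with a common denominator. -/
abbrev Coeffs (k : Type) [Field k] (d r : ℕ) : Type := Fin (d + 1) ⊕ Option (Fin r) → 𝓞 k

/-- The map is a generalized Hénon map of degree `d`: `a_d`, `δ` and the denominator are not `0`. -/
def IsHenon {k : Type} [Field k] {d r : ℕ} (q : Coeffs k d r) : Prop :=
  q (Sum.inl (Fin.last d)) ≠ 0 ∧ q (Sum.inr none) ≠ 0 ∧ ∀ s, q (Sum.inr (some s)) ≠ 0

/-- The Hénon map `(x, y) ↦ (y, (a_0 + a_1 y + ... + a_d y^d - δ x) / m)` on the plane over the
algebraic closure of `k`. -/
noncomputable def henon {k : Type} [Field k] [NumberField k] {d r : ℕ} (q : Coeffs k d r)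
    (P : AlgebraicClosure k × AlgebraicClosure k) : AlgebraicClosure k × AlgebraicClosure k :=
  (P.2, ((∑ i : Fin (d + 1), algebraMap k (AlgebraicClosure k) (q (Sum.inl i) : k) *
      P.2 ^ (i : ℕ)) - algebraMap k (AlgebraicClosure k) (q (Sum.inr none) : k) * P.1) /
    ∏ s : Fin r, algebraMap k (AlgebraicClosure k) (q (Sum.inr (some s)) : k))

/-- There are at most `C` periodic points `P` over the algebraic closure with `[k(P) : k] ≤ B`. -/
def Bounded {k : Type} [Field k] [NumberField k] {d r : ℕ} (B C : ℕ) (q : Coeffs k d r) : Prop :=
  ∀ S : Finset (AlgebraicClosure k × AlgebraicClosure k),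
    (∀ P ∈ S, (∃ n : ℕ, 1 ≤ n ∧ (henon q)^[n] P = P) ∧
      Module.finrank k (IntermediateField.adjoin k {P.1, P.2}) ≤ B) → S.card ≤ C

/-- The coefficients whose coordinates in the integral basis `ω` are at most `H` in absolute
value. -/
def Box {k : Type} [Field k] {J : Type} (ω : Module.Basis J ℤ (𝓞 k)) (d r H : ℕ) :
    Set (Coeffs k d r) :=
  {q | ∀ i j, |ω.repr (q i) j| ≤ (H : ℤ)}

/-- **Uniform boundedness for 100% of the Hénon maps of every degree.** For all `D`, `B` and `d ≥ 2`
there is a constant `C`, equal to `0` if `B < d`, such that for every number field `k` of degree at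
most `D`, every integral basis `ω` of `k` and every `r` (`r = 0`: integral maps, `r = 1`: all maps),
the proportion of the coefficient vectors in the box of size `H` which define a generalized Hénon
map of degree `d` with at most `C` periodic points `P` such that `[k(P) : k] ≤ B` tends to `1` as
`H → ∞`. -/
theorem result (D B d : ℕ) (hd : 2 ≤ d) : ∃ C : ℕ, (B < d → C = 0) ∧
    ∀ (k : Type) [Field k] [NumberField k], Module.finrank ℚ k ≤ D →
      ∀ (J : Type) [Fintype J] (ω : Module.Basis J ℤ (𝓞 k)) (r : ℕ),
        Tendsto (fun H : ℕ =>
          (({q | q ∈ Box ω d r H ∧ IsHenon q ∧ Bounded B C q} : Set (Coeffs k d r)).ncard : ℝ) /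
          ((Box ω d r H).ncard : ℝ)) atTop (𝓝 1) := by
  obtain ⟨C, hC0, hC⟩ := Pool.Agent.W275.ND.henon_final D B d hd
  refine ⟨C, hC0, fun k _ _ hk J _ ω r => ?_⟩
  apply Pool.Agent.W275.ND.ratioV ω (fun q : Coeffs k d r => IsHenon q ∧ Bounded B C q)
  exact hC k hk J ω (Fin r)

end Pool.Agent.Results.MP_0e6b5f_nt.HundredPercent
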